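import Pool.Agent.Helper58.DH.Goals

/-!
# Packet F_INT (MP_06d934_gt, project DH): the theorem for the flag manifolds.
-/

set_option autoImplicit false

namespace Pool.Agent.Helper5.DH

open Pool.Agent.Helper58.DG Pool.Agent.Helper58.DH Topology

/-- The right sides of the equations. -/
noncomputable def rhs (P Q M E : ℝ) (w : Fin 6 → ℝ) : Fin 6 → ℝ :=
  ![1 - (P + E) * cs (w 1) (w 2) (w 0) - (Q + E) * cs (w 1) (w 3) (w 0) -
      M * cs (w 4) (w 5) (w 0),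
    1 - (P + E) * cs (w 0) (w 2) (w 1) - (Q + E) * cs (w 0) (w 3) (w 1) -
      M * cs (w 4) (w 5) (w 1),
    1 - 2 * Q * cs (w 0) (w 1) (w 2) - M * cs (w 4) (w 4) (w 2),
    1 - 2 * P * cs (w 0) (w 1) (w 3) - M * cs (w 5) (w 5) (w 3),
    1 - (P + E) * cs (w 2) (w 4) (w 4) - Q * (cs (w 5) (w 1) (w 4) + cs (w 5) (w 0) (w 4)),
    1 - (Q + E) * cs (w 3) (w 5) (w 5) - P * (cs (w 4) (w 1) (w 5) + cs (w 4) (w 0) (w 5))]

theorem eqC_iff (P Q M E : ℝ) (w : Fin 6 → ℝ) : EqC P Q M E 1 w ↔ ∀ e, w e = rhs P Q M E w e := by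
  constructor
  · rintro ⟨h0, h1, h2, h3, h4, h5⟩ e
    fin_cases e
    · exact h0
    · exact h1
    · exact h2
    · exact h3
    · exact h4
    · exact h5
  · intro h
    exact ⟨h 0, h 1, h 2, h 3, h 4, h 5⟩

/-- The multipliers, times the double of the variable. -/
def den (w : Fin 6 → ℝ) : Fin 6 → ℝ :=
  ![4 * w 0 * w 1 * w 2 * w 3 * w 4 * w 5, 4 * w 1 * w 0 * w 2 * w 3 * w 4 * w 5,
    4 * w 2 * w 0 * w 1 * w 4 ^ 2, 4 * w 3 * w 0 * w 1 * w 5 ^ 2,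
    4 * w 4 * w 4 * w 5 * w 0 * w 1, 4 * w 5 * w 4 * w 5 * w 0 * w 1]

theorem den_pos {v : Fin 6 → ℝ} (hv : ∀ i, 0 < v i) (k : Fin 6) : 0 < den v k := by
  have h0 := hv 0
  have h1 := hv 1
  have h2 := hv 2
  have h3 := hv 3
  have h4 := hv 4
  have h5 := hv 5
  fin_cases k <;> simp only [den] <;> simp <;> positivity

theorem den_cd (k : Fin 6) : ContDiff ℝ 1 (fun v : Fin 6 → ℝ ↦ den v k) := by
  fin_cases k <;> simp only [den] <;> simp <;> fun_prop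

theorem PC_cd (P Q M E B : ℝ) (k : Fin 6) :
    ContDiff ℝ 1 (fun v : Fin 6 → ℝ ↦ PC P Q M E B v k) := by
  fin_cases k <;> simp only [PC] <;> simp <;> fun_prop

theorem PC_eq (P Q M E : ℝ) {w : Fin 6 → ℝ} (hw : ∀ i, 0 < w i) (e : Fin 6) :
    PC P Q M E 1 w e * (2 * w e) = den w e * (w e - rhs P Q M E w e) := by
  have h0 := (hw 0).ne'
  have h1 := (hw 1).ne'
  have h2 := (hw 2).ne'
  have h3 := (hw 3).ne'
  have h4 := (hw 4).ne'
  have h5 := (hw 5).ne'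
  fin_cases e
  all_goals simp [PC, den, rhs, cs]
  all_goals field_simp
  all_goals ring

theorem ric_rhs (h3 : F_RIC) {ε p q m : ℝ} (hp : 0 < p) (hq : 0 < q) (hm : 0 < m)
    (hpe : 0 < p + ε) (hqe : 0 < q + ε) (hk : 0 < 2 * p + 2 * q + m + 2 * ε)
    {x : Fin 6 → ℝ} (hx : ∀ i, 0 < x i) (e : Fin 6) :
    2 * x e * ric (dF ε p q m) (AF ε p q m) x e =
      rhs (p / (2 * p + 2 * q + m + 2 * ε)) (q / (2 * p + 2 * q + m + 2 * ε))
        (m / (2 * p + 2 * q + m + 2 * ε)) (ε / (2 * p + 2 * q + m + 2 * ε)) x e := by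
  obtain ⟨a0, a1, a2, a3, a4, a5⟩ := h3 ε p q m hp hq hm hpe hqe hk x hx
  fin_cases e
  · exact a0
  · exact a1
  · exact a2
  · exact a3
  · exact a4
  · exact a5

theorem ric_eq (h3 : F_RIC) {ε p q m : ℝ} (hp : 0 < p) (hq : 0 < q) (hm : 0 < m)
    (hpe : 0 < p + ε) (hqe : 0 < q + ε) (hk : 0 < 2 * p + 2 * q + m + 2 * ε)
    {x : Fin 6 → ℝ} (hx : ∀ i, 0 < x i) (e : Fin 6) :
    ric (dF ε p q m) (AF ε p q m) x e = 1 / 2 -
      PC (p / (2 * p + 2 * q + m + 2 * ε)) (q / (2 * p + 2 * q + m + 2 * ε))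
        (m / (2 * p + 2 * q + m + 2 * ε)) (ε / (2 * p + 2 * q + m + 2 * ε)) 1 x e / den x e := by
  have h1 := ric_rhs h3 hp hq hm hpe hqe hk hx e
  have h2 := PC_eq (p / (2 * p + 2 * q + m + 2 * ε)) (q / (2 * p + 2 * q + m + 2 * ε))
        (m / (2 * p + 2 * q + m + 2 * ε)) (ε / (2 * p + 2 * q + m + 2 * ε)) hx e
  rw [← h1] at h2
  have hd := den_pos hx e
  have hxe := hx e
  rw [eq_sub_iff_add_eq, ← eq_sub_iff_add_eq']
  rw [div_eq_iff hd.ne']
  have h4 : 2 * x e ≠ 0 := by positivity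
  apply mul_right_cancel₀ h4
  rw [h2]
  ring

theorem sol_iff (h3 : F_RIC) {ε p q m : ℝ} (hp : 0 < p) (hq : 0 < q) (hm : 0 < m)
    (hpe : 0 < p + ε) (hqe : 0 < q + ε) (hk : 0 < 2 * p + 2 * q + m + 2 * ε)
    (x : Fin 6 → ℝ) :
    SolC (p / (2 * p + 2 * q + m + 2 * ε)) (q / (2 * p + 2 * q + m + 2 * ε))
        (m / (2 * p + 2 * q + m + 2 * ε)) (ε / (2 * p + 2 * q + m + 2 * ε)) 1 x ↔
      (∀ i, 0 < x i) ∧ ∀ e, ric (dF ε p q m) (AF ε p q m) x e = 1 / 2 := by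
  unfold SolC
  rw [eqC_iff]
  constructor
  · rintro ⟨hx, h⟩
    refine ⟨hx, fun e ↦ ?_⟩
    have h1 := ric_rhs h3 hp hq hm hpe hqe hk hx e
    rw [← h e] at h1
    have h4 : 2 * x e ≠ 0 := by
      have := hx e
      positivity
    apply mul_left_cancel₀ h4
    rw [h1]
    ring
  · rintro ⟨hx, h⟩
    refine ⟨hx, fun e ↦ ?_⟩
    have h1 := ric_rhs h3 hp hq hm hpe hqe hk hx e
    rw [← h1, h e]
    ring

theorem jac_ne (h3 : F_RIC) {ε p q m : ℝ} (hp : 0 < p) (hq : 0 < q) (hm : 0 < m)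
    (hpe : 0 < p + ε) (hqe : 0 < q + ε) (hk : 0 < 2 * p + 2 * q + m + 2 * ε)
    {x : Fin 6 → ℝ} (hx : ∀ i, 0 < x i)
    (hr : ∀ e, ric (dF ε p q m) (AF ε p q m) x e = 1 / 2)
    (hN : NonDegC (dF ε p q m) (AF ε p q m) x) :
    jac (PC (p / (2 * p + 2 * q + m + 2 * ε)) (q / (2 * p + 2 * q + m + 2 * ε))
        (m / (2 * p + 2 * q + m + 2 * ε)) (ε / (2 * p + 2 * q + m + 2 * ε)) 1) x ≠ 0 := by
  intro hj
  set F := PC (p / (2 * p + 2 * q + m + 2 * ε)) (q / (2 * p + 2 * q + m + 2 * ε))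
        (m / (2 * p + 2 * q + m + 2 * ε)) (ε / (2 * p + 2 * q + m + 2 * ε)) 1 with hF'
  have h0 : LinearMap.det ((fderiv ℝ F x : (Fin 6 → ℝ) →L[ℝ] (Fin 6 → ℝ)) :
      (Fin 6 → ℝ) →ₗ[ℝ] (Fin 6 → ℝ)) = 0 := hj
  obtain ⟨w, hw, hw0⟩ := Submodule.exists_mem_ne_zero_of_ne_bot
    (LinearMap.bot_lt_ker_of_det_eq_zero h0).ne'
  have hw1 : fderiv ℝ F x w = 0 := hw
  apply hw0
  have hFd : HasFDerivAt F (fderiv ℝ F x) x := by
    have h1 : ContDiff ℝ 1 F := contDiff_pi.2 fun k ↦ PC_cd _ _ _ _ _ k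
    exact (h1.differentiable (by simp) _).hasFDerivAt
  let γ : ℝ → Fin 6 → ℝ := fun s ↦ x + s • w
  have hγ0 : γ 0 = x := by simp [γ]
  have hγ : HasDerivAt γ w 0 := by
    have h1 := ((hasDerivAt_id (0 : ℝ)).smul_const w).const_add x
    rw [one_smul] at h1
    exact h1
  have hF : HasDerivAt (fun s ↦ F (γ s)) 0 0 := by
    have h1 : HasFDerivAt F (fderiv ℝ F x) (γ 0) := by
      rw [hγ0]
      exact hFd
    have h2 := h1.comp_hasDerivAt 0 hγ
    rw [hw1] at h2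
    exact h2
  apply hN w
  intro e
  have hke : HasDerivAt (fun s ↦ F (γ s) e) 0 0 := by
    rw [hasDerivAt_pi] at hF
    exact hF e
  have hd : DifferentiableAt ℝ (fun s ↦ den (γ s) e) 0 := by
    have h2 : DifferentiableAt ℝ (fun v : Fin 6 → ℝ ↦ den v e) (γ 0) :=
      (den_cd e).differentiable (by simp) _
    exact h2.comp 0 hγ.differentiableAt
  have hd0 : den (γ 0) e ≠ 0 := by
    rw [hγ0]
    exact (den_pos hx _).ne'
  have h2 := (hke.div hd.hasDerivAt hd0).const_sub (1 / 2)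
  have h4 : F (γ 0) e = 0 := by
    rw [hγ0]
    have h5 := ric_eq h3 hp hq hm hpe hqe hk hx e
    rw [hr e, ← hF'] at h5
    have h6 : F x e / den x e = 0 := by linarith
    rcases div_eq_zero_iff.1 h6 with h7 | h7
    · exact h7
    · exact absurd h7 (den_pos hx e).ne'
  rw [h4] at h2
  simp only [zero_mul, sub_zero, zero_div, neg_zero] at h2
  refine h2.congr_of_eventuallyEq ?_
  have h4 : ∀ᶠ s in 𝓝 (0 : ℝ), ∀ l, 0 < γ s l := by
    rw [Filter.eventually_all]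
    intro l
    have h5 : ContinuousAt (fun s ↦ γ s l) 0 :=
      (continuous_apply l).continuousAt.comp hγ.continuousAt
    refine h5.eventually (lt_mem_nhds ?_)
    show 0 < γ 0 l
    rw [hγ0]
    exact hx l
  filter_upwards [h4] with s hs
  exact ric_eq h3 hp hq hm hpe hqe hk hs e

theorem main (h1 : F_PAR) (h3 : F_RIC) {ε p q m : ℝ} (hp : 0 < p) (hq : 0 < q) (hm : 0 < m)
    (hpe : 0 < p + ε) (hqe : 0 < q + ε) (hk : 0 < 2 * p + 2 * q + m + 2 * ε)
    (hP : PosPath (p / (2 * p + 2 * q + m + 2 * ε)) (q / (2 * p + 2 * q + m + 2 * ε))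
        (m / (2 * p + 2 * q + m + 2 * ε)) (ε / (2 * p + 2 * q + m + 2 * ε)))
    (hQ : PosPath (q / (2 * p + 2 * q + m + 2 * ε)) (p / (2 * p + 2 * q + m + 2 * ε))
        (m / (2 * p + 2 * q + m + 2 * ε)) (ε / (2 * p + 2 * q + m + 2 * ε))) :
    Concl ε p q m := by
  have key := h1 (p / (2 * p + 2 * q + m + 2 * ε)) (q / (2 * p + 2 * q + m + 2 * ε))
        (m / (2 * p + 2 * q + m + 2 * ε)) (ε / (2 * p + 2 * q + m + 2 * ε))
        (by positivity) (by positivity) (by positivity)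
        (by rw [← add_div]; positivity) (by rw [← add_div]; positivity)
        (by
          have h0 := hk.ne'
          have e : 2 * (p / (2 * p + 2 * q + m + 2 * ε)) + 2 * (q / (2 * p + 2 * q + m + 2 * ε)) +
              m / (2 * p + 2 * q + m + 2 * ε) + 2 * (ε / (2 * p + 2 * q + m + 2 * ε)) =
              (2 * p + 2 * q + m + 2 * ε) / (2 * p + 2 * q + m + 2 * ε) := by ring
          rw [e, div_self h0]) hP hQ
  obtain ⟨k1, k2⟩ := key
  constructor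
  · obtain ⟨w, hw, hw'⟩ := k1
    obtain ⟨g1, g2⟩ := (sol_iff h3 hp hq hm hpe hqe hk w).1 hw
    exact ⟨w, g1, g2, hw'⟩
  · intro Z hZ hN
    refine k2 Z (fun w ↦ ?_) (fun w hw ↦ ?_)
    · rw [hZ w, sol_iff h3 hp hq hm hpe hqe hk w]
    · obtain ⟨g1, g2⟩ := (hZ w).1 hw
      exact jac_ne h3 hp hq hm hpe hqe hk g1 g2 (hN w hw)

theorem f_int (h1 : F_PAR) (h2 : F_POS) (h3 : F_RIC) : F_INT := by
  constructor
  · intro p q m hp hq hm
    have hp' : (2 : ℝ) ≤ p := by exact_mod_cast hp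
    have hq' : (2 : ℝ) ≤ q := by exact_mod_cast hq
    have hm' : (1 : ℝ) ≤ m := by exact_mod_cast hm
    refine main h1 h3 (by linarith) (by linarith) (by linarith) (by linarith) (by linarith)
      (by linarith) (h2.1 p q m hp hq hm) ?_
    have := h2.1 q p m hq hp hm
    simp only at this
    have e : 2 * (q : ℝ) + 2 * p + m + 2 * (-1) = 2 * p + 2 * q + m + 2 * (-1) := by ring
    rw [e] at this
    exact this
  · intro p q r hp hq hr hc
    have hp' : (1 : ℝ) ≤ p := by exact_mod_cast hp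
    have hq' : (1 : ℝ) ≤ q := by exact_mod_cast hq
    have hr' : (1 : ℝ) ≤ r := by exact_mod_cast hr
    have hr2 : (1 : ℝ) ≤ (2 * r : ℕ) := by
      push_cast
      linarith
    refine main h1 h3 (by linarith) (by linarith) (by linarith) (by linarith) (by linarith)
      (by linarith) (h2.2 p q r hp hq hr hc) ?_
    have := h2.2 q p r hq hp hr (by rw [max_comm, min_comm]; exact hc)
    simp only at this
    have e : 2 * (q : ℝ) + 2 * p + (2 * r : ℕ) + 2 * 1 = 2 * p + 2 * q + (2 * r : ℕ) + 2 * 1 := by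
      ring
    rw [e] at this
    exact this

end Pool.Agent.Helper5.DH
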